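import Mathlib
import Pool.Agent.Helper26.Maz.Cells

/-!
# MAZ-BLK, part A: the open cell of a point, stars
-/

set_option autoImplicit false

namespace Pool.Agent.Helper7.MazBlk

open Pool.Agent.Helper26.Maz

/-- The doubled coordinate of the open cell of a real number. -/
noncomputable def dbl (x : ℝ) : ℤ := ⌊x⌋ + ⌈x⌉

/-- The index of the cell with a given doubled coordinate. -/
def cl (n : ℕ) (D : ℤ) : ℕ := min n (D + 1).toNat

theorem cl_lt (n : ℕ) (D : ℤ) : cl n D < n + 1 := by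
  unfold cl; omega

/-- The cell with given doubled coordinates. -/
def cellD (D : ℤ × ℤ × ℤ) : Cell :=
  ((D.1 : ZMod 8), ⟨cl 8 D.2.1, cl_lt 8 _⟩, ⟨cl 6 D.2.2, cl_lt 6 _⟩)

/-- The representative of a point of the circle in `[0,4)`. -/
noncomputable def rep (y : C4) : ℝ := ((AddCircle.equivIco 4 0 y : Set.Ico (0 : ℝ) (0 + 4)) : ℝ)

theorem rep_coe (y : C4) : (rep y : C4) = y := AddCircle.coe_equivIco

/-- The open cell of a point. -/
noncomputable def cellOf (p : C4 × ℝ × ℝ) : Cell := cellD (dbl (rep p.1), dbl p.2.1, dbl p.2.2)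

/-- the face relation on the line -/
def leZ (D D' : ℤ) : Prop := D' = D ∨ (D % 2 = 0 ∧ (D' = D + 1 ∨ D' = D - 1))

def le1 (s t : ZMod 8) : Prop := t = s ∨ (s.val % 2 = 0 ∧ (t = s + 1 ∨ t = s - 1))

def le2 (s t : ℕ) : Prop := t = s ∨ (s % 2 = 1 ∧ (t = s + 1 ∨ t + 1 = s))

instance (s t : ZMod 8) : Decidable (le1 s t) := by unfold le1; infer_instance
instance (s t : ℕ) : Decidable (le2 s t) := by unfold le2; infer_instance

/-- the face relation -/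
def le (σ τ : Cell) : Prop := le1 σ.1 τ.1 ∧ le2 σ.2.1.val τ.2.1.val ∧ le2 σ.2.2.val τ.2.2.val

instance (σ τ : Cell) : Decidable (le σ τ) := by unfold le; infer_instance

theorem le2_of_leZ {n : ℕ} (hn : n % 2 = 0) {D D' : ℤ} (h : leZ D D') :
    le2 (cl n D) (cl n D') := by
  unfold leZ at h; unfold le2 cl; omega

theorem le1_of_leZ {D D' : ℤ} (h : leZ D D') : le1 (D : ZMod 8) (D' : ZMod 8) := by
  unfold le1
  rcases h with h | ⟨h2, h | h⟩
  · left; rw [h]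
  · right
    refine ⟨?_, Or.inl (by rw [h]; push_cast; ring)⟩
    have h3 : (((D : ZMod 8).val : ℤ)) = D % 8 := ZMod.val_intCast (n := 8) D
    omega
  · right
    refine ⟨?_, Or.inr (by rw [h]; push_cast; ring)⟩
    have h3 : (((D : ZMod 8).val : ℤ)) = D % 8 := ZMod.val_intCast (n := 8) D
    omega

theorem le_of_leZ {D D' : ℤ × ℤ × ℤ} (h1 : leZ D.1 D'.1) (h2 : leZ D.2.1 D'.2.1)
    (h3 : leZ D.2.2 D'.2.2) : le (cellD D) (cellD D') :=
  ⟨le1_of_leZ h1, le2_of_leZ (n := 8) (by norm_num) h2, le2_of_leZ (n := 6) (by norm_num) h3⟩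

theorem floor_ceil (x : ℝ) : ⌊x⌋ ≤ ⌈x⌉ ∧ ⌈x⌉ ≤ ⌊x⌋ + 1 :=
  ⟨Int.floor_le_ceil x, Int.ceil_le_floor_add_one x⟩

theorem dbl_add_int (x : ℝ) (n : ℤ) : dbl (x + n) = dbl x + 2 * n := by
  unfold dbl; rw [Int.floor_add_intCast, Int.ceil_add_intCast]; ring

/-- star in the line -/
theorem star2_iff (n m : ℕ) (hn : n % 2 = 0) (h2 : 2 ≤ n) (hm : m ≤ n) (x : ℝ) :
    ((2 ≤ m → ((m / 2 : ℕ) : ℝ) - 1 < x) ∧ (m ≤ n - 2 → x < (((m + 1) / 2 : ℕ) : ℝ)) ↔
      le2 m (cl n (dbl x))) := by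
  have e1 : ((((m / 2 : ℕ) : ℝ) - 1 < x) ↔ ((m / 2 : ℕ) : ℤ) - 1 < ⌈x⌉) := by
    rw [Int.lt_ceil]; push_cast; rfl
  have e2 : ((x < (((m + 1) / 2 : ℕ) : ℝ)) ↔ ⌊x⌋ < (((m + 1) / 2 : ℕ) : ℤ)) := by
    rw [Int.floor_lt]; push_cast; rfl
  rw [e1, e2]
  have := floor_ceil x
  unfold le2 cl dbl
  generalize ⌊x⌋ = f at *
  generalize ⌈x⌉ = c at *
  omega

theorem leZ_star1 (k : ℕ) (y : ℝ) :
    (|y - (k : ℝ) / 2| < if k % 2 = 0 then 1 else 1 / 2) ↔ leZ k (dbl y) := by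
  have hf := floor_ceil y
  rcases Nat.even_or_odd' k with ⟨m, hm | hm⟩
  · have h0 : k % 2 = 0 := by omega
    rw [if_pos h0, abs_lt]
    have e1 : (-1 < y - (k : ℝ) / 2) ↔ (m : ℤ) - 1 < ⌈y⌉ := by
      rw [Int.lt_ceil, hm]; push_cast
      constructor <;> intro h <;> linarith
    have e2 : (y - (k : ℝ) / 2 < 1) ↔ ⌊y⌋ < (m : ℤ) + 1 := by
      rw [Int.floor_lt, hm]; push_cast
      constructor <;> intro h <;> linarith
    rw [e1, e2]
    unfold leZ dbl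
    generalize ⌊y⌋ = f at *
    generalize ⌈y⌉ = c at *
    omega
  · have h0 : ¬ k % 2 = 0 := by omega
    rw [if_neg h0, abs_lt]
    have e1 : (-(1 / 2) < y - (k : ℝ) / 2) ↔ (m : ℤ) < ⌈y⌉ := by
      rw [Int.lt_ceil, hm]; push_cast
      constructor <;> intro h <;> linarith
    have e2 : (y - (k : ℝ) / 2 < 1 / 2) ↔ ⌊y⌋ < (m : ℤ) + 1 := by
      rw [Int.floor_lt, hm]; push_cast
      constructor <;> intro h <;> linarith
    rw [e1, e2]
    unfold leZ dbl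
    generalize ⌊y⌋ = f at *
    generalize ⌈y⌉ = c at *
    omega

theorem dbl_coe {y y' : ℝ} (h : (y : C4) = (y' : C4)) : ∃ n : ℤ, y = y' + 4 * n ∧
    dbl y = dbl y' + 8 * n := by
  rw [eq_comm, ← sub_eq_zero, ← AddCircle.coe_sub, AddCircle.coe_eq_zero_iff] at h
  obtain ⟨n, hn⟩ := h
  refine ⟨-n, ?_, ?_⟩
  · rw [zsmul_eq_mul] at hn; push_cast; linarith
  · have h2 : y = y' + ((-(4 * n) : ℤ) : ℝ) := by
      rw [zsmul_eq_mul] at hn; push_cast; linarith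
    rw [h2, dbl_add_int]; ring

theorem dbl_cast {y y' : ℝ} (h : (y : C4) = (y' : C4)) :
    ((dbl y : ℤ) : ZMod 8) = ((dbl y' : ℤ) : ZMod 8) := by
  obtain ⟨n, -, hn⟩ := dbl_coe h
  rw [hn]
  push_cast
  have : (8 : ZMod 8) = 0 := by decide
  rw [this]; ring

theorem star1_iff (k : ZMod 8) (y : C4) :
    (∃ y' : ℝ, y = (y' : C4) ∧ |y' - (k.val : ℝ) / 2| < if k.val % 2 = 0 then 1 else 1 / 2) ↔
      le1 k ((dbl (rep y) : ℤ) : ZMod 8) := by
  constructor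
  · rintro ⟨y', h1, h2⟩
    rw [leZ_star1] at h2
    have h3 := le1_of_leZ h2
    rw [dbl_cast (y := rep y) (y' := y') (by rw [rep_coe, h1])]
    simpa using h3
  · intro h
    -- find the representative
    have key : ∃ D : ℤ, leZ k.val D ∧ (D : ZMod 8) = ((dbl (rep y) : ℤ) : ZMod 8) := by
      rcases h with h | ⟨h1, h | h⟩
      · exact ⟨k.val, Or.inl rfl, by rw [h]; simp⟩
      · exact ⟨k.val + 1, Or.inr ⟨by omega, Or.inl rfl⟩, by rw [h]; simp⟩
      · exact ⟨k.val - 1, Or.inr ⟨by omega, Or.inr rfl⟩, by rw [h]; simp⟩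
    obtain ⟨D, hD, hD2⟩ := key
    rw [ZMod.intCast_eq_intCast_iff_dvd_sub] at hD2
    obtain ⟨n, hn⟩ := hD2
    refine ⟨rep y + ((-(4 * n) : ℤ) : ℝ), ?_, ?_⟩
    · conv_lhs => rw [← rep_coe y]
      rw [AddCircle.coe_add]
      have : ((((-(4 * n) : ℤ) : ℝ)) : C4) = 0 := by
        rw [AddCircle.coe_eq_zero_iff]
        exact ⟨-n, by rw [zsmul_eq_mul]; push_cast; ring⟩
      rw [this, add_zero]
    · rw [leZ_star1, dbl_add_int]
      have : dbl (rep y) + 2 * -(4 * n) = D := by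
        push_cast at hn; omega
      rw [this]; exact hD

theorem mem_star (σ : Cell) (p : C4 × ℝ × ℝ) : p ∈ Helper26.Maz.star σ ↔ le σ (cellOf p) := by
  unfold Helper26.Maz.star
  rw [Set.mem_setOf_eq, star1_iff]
  have h2 := star2_iff 8 σ.2.1.val (by norm_num) (by norm_num) (by omega) p.2.1
  have h3 := star2_iff 6 σ.2.2.val (by norm_num) (by norm_num) (by omega) p.2.2
  norm_num only at h2 h3
  rw [h2, h3]
  rfl

theorem le_refl' (σ : Cell) : le σ σ := ⟨Or.inl rfl, Or.inl rfl, Or.inl rfl⟩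

theorem mem_star_cellOf (p : C4 × ℝ × ℝ) : p ∈ Helper26.Maz.star (cellOf p) := by
  rw [mem_star]; exact le_refl' _

end Pool.Agent.Helper7.MazBlk
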