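import Mathlib
import Pool.Agent.Helper7.Maz.BlkA

/-!
# MAZ-BLK, part B: homes, centres, polygons
-/

set_option autoImplicit false

namespace Pool.Agent.Helper7.MazBlk

open Pool.Agent.Helper26.Maz

/-- The home of a point with given doubled coordinates. -/
def homeD (D : ℤ × ℤ × ℤ) : Blk :=
  (((D.1 / 2 : ℤ) : ZMod 4), ⟨min 4 (D.2.1 / 2 + 1).toNat, by omega⟩,
    ⟨min 3 (D.2.2 / 2 + 1).toNat, by omega⟩)

theorem half_floor_ceil (D : ℤ) : ⌊(D : ℝ) / 2⌋ = D / 2 ∧ ⌈(D : ℝ) / 2⌉ = D - D / 2 := by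
  rcases Int.even_or_odd' D with ⟨m, hm | hm⟩
  · have h1 : (D : ℝ) / 2 = (m : ℝ) := by rw [hm]; push_cast; ring
    have h2 : D / 2 = m := by omega
    rw [h1, Int.floor_intCast, Int.ceil_intCast, h2]
    exact ⟨rfl, by omega⟩
  · have h2 : D / 2 = m := by omega
    rw [h2]
    constructor
    · rw [Int.floor_eq_iff, hm]; push_cast; constructor <;> linarith
    · rw [Int.ceil_eq_iff, hm]; push_cast; constructor <;> linarith

theorem dbl_half (D : ℤ) : dbl ((D : ℝ) / 2) = D := by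
  unfold dbl; rw [(half_floor_ceil D).1, (half_floor_ceil D).2]; ring

/-- The point with given doubled coordinates. -/
noncomputable def pt (D : ℤ × ℤ × ℤ) : C4 × ℝ × ℝ :=
  ((((D.1 : ℝ) / 2 : ℝ) : C4), (D.2.1 : ℝ) / 2, (D.2.2 : ℝ) / 2)

theorem cellOf_coe (y x z : ℝ) : cellOf ((y : C4), x, z) = cellD (dbl y, dbl x, dbl z) := by
  unfold cellOf cellD
  simp only
  rw [dbl_cast (y := rep (y : C4)) (y' := y) (rep_coe _)]

theorem cellOf_pt (D : ℤ × ℤ × ℤ) : cellOf (pt D) = cellD D := by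
  unfold pt; rw [cellOf_coe, dbl_half, dbl_half, dbl_half]

theorem floor_cast {y y' : ℝ} (h : (y : C4) = (y' : C4)) :
    ((⌊y⌋ : ℤ) : ZMod 4) = ((⌊y'⌋ : ℤ) : ZMod 4) := by
  obtain ⟨n, hn, -⟩ := dbl_coe h
  have : y = y' + ((4 * n : ℤ) : ℝ) := by rw [hn]; push_cast; ring
  rw [this, Int.floor_add_intCast]
  push_cast
  have : (4 : ZMod 4) = 0 := by decide
  rw [this]; ring

theorem home1 (p : C4 × ℝ × ℝ) : (home p).1 = ((⌊rep p.1⌋ : ℤ) : ZMod 4) := rfl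

theorem home2 (p : C4 × ℝ × ℝ) : (home p).2.1.val = min 4 (⌊p.2.1⌋ + 1).toNat := by
  have e0 : p.2.1 < 0 ↔ ⌊p.2.1⌋ < 0 := by
    rw [Int.floor_lt]; push_cast; rfl
  have e1 : p.2.1 < 1 ↔ ⌊p.2.1⌋ < 1 := by
    rw [Int.floor_lt]; push_cast; rfl
  have e2 : p.2.1 < 2 ↔ ⌊p.2.1⌋ < 2 := by
    rw [Int.floor_lt]; push_cast; rfl
  have e3 : p.2.1 < 3 ↔ ⌊p.2.1⌋ < 3 := by
    rw [Int.floor_lt]; push_cast; rfl
  unfold home
  simp only [e0, e1, e2, e3]
  generalize ⌊p.2.1⌋ = f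
  split_ifs
  · show 0 = _; omega
  · show 1 = _; omega
  · show 2 = _; omega
  · show 3 = _; omega
  · show 4 = _; omega

theorem home3 (p : C4 × ℝ × ℝ) : (home p).2.2.val = min 3 (⌊p.2.2⌋ + 1).toNat := by
  have e0 : p.2.2 < 0 ↔ ⌊p.2.2⌋ < 0 := by
    rw [Int.floor_lt]; push_cast; rfl
  have e1 : p.2.2 < 1 ↔ ⌊p.2.2⌋ < 1 := by
    rw [Int.floor_lt]; push_cast; rfl
  have e2 : p.2.2 < 2 ↔ ⌊p.2.2⌋ < 2 := by
    rw [Int.floor_lt]; push_cast; rfl
  unfold home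
  simp only [e0, e1, e2]
  generalize ⌊p.2.2⌋ = f
  split_ifs
  · show 0 = _; omega
  · show 1 = _; omega
  · show 2 = _; omega
  · show 3 = _; omega

theorem home_pt (D : ℤ × ℤ × ℤ) : home (pt D) = homeD D := by
  refine Prod.ext ?_ (Prod.ext (Fin.ext ?_) (Fin.ext ?_))
  · rw [home1]
    have := floor_cast (y := rep (pt D).1) (y' := (D.1 : ℝ) / 2) (rep_coe _)
    rw [this, (half_floor_ceil D.1).1]; rfl
  · rw [home2]
    have : (pt D).2.1 = (D.2.1 : ℝ) / 2 := rfl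
    rw [this, (half_floor_ceil D.2.1).1]; rfl
  · rw [home3]
    have : (pt D).2.2 = (D.2.2 : ℝ) / 2 := rfl
    rw [this, (half_floor_ceil D.2.2).1]; rfl

/-- Faces of incident cells are incident. -/
theorem inc_mono {σ τ : Cell} {c : Blk} (h : le σ τ) (hi : inc τ c) : inc σ c := by
  obtain ⟨h1, h2, h3⟩ := h
  obtain ⟨i1, i2, i3⟩ := hi
  refine ⟨?_, ?_, ?_⟩
  · have key : ∀ (s t : ZMod 8) (c : ZMod 4), le1 s t →
        (t = 2 * (c.val : ZMod 8) ∨ t = 2 * (c.val : ZMod 8) + 1 ∨ t = 2 * (c.val : ZMod 8) + 2) →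
        (s = 2 * (c.val : ZMod 8) ∨ s = 2 * (c.val : ZMod 8) + 1 ∨
          s = 2 * (c.val : ZMod 8) + 2) := by decide
    exact key _ _ _ h1 i1
  · unfold le2 at h2; omega
  · unfold le2 at h3; omega

theorem inc_cellOf_home (p : C4 × ℝ × ℝ) : inc (cellOf p) (home p) := by
  refine ⟨?_, ?_, ?_⟩
  · have hr := (AddCircle.equivIco 4 0 p.1).2
    have h0 : 0 ≤ ⌊rep p.1⌋ := Int.floor_nonneg.2 hr.1
    have h4 : ⌊rep p.1⌋ < 4 := by
      rw [Int.floor_lt]; push_cast; have := hr.2; unfold rep; linarith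
    have hf := floor_ceil (rep p.1)
    rw [home1]
    have e1 : (cellOf p).1 = ((dbl (rep p.1) : ℤ) : ZMod 8) := rfl
    rw [e1]
    unfold dbl
    have hv : ((((⌊rep p.1⌋ : ℤ) : ZMod 4).val : ℕ) : ZMod 8) = ((⌊rep p.1⌋ : ℤ) : ZMod 8) := by
      have := ZMod.val_intCast (n := 4) ⌊rep p.1⌋
      have h5 : ((((⌊rep p.1⌋ : ℤ) : ZMod 4).val : ℕ) : ℤ) = ⌊rep p.1⌋ := by
        rw [this]; push_cast; omega
      conv_rhs => rw [← h5]
      push_cast; rfl
    rw [hv]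
    rcases (by omega : ⌈rep p.1⌉ = ⌊rep p.1⌋ ∨ ⌈rep p.1⌉ = ⌊rep p.1⌋ + 1) with h | h
    · left; rw [h]; push_cast; ring
    · right; left; rw [h]; push_cast; ring
  · rw [home2]
    have e1 : (cellOf p).2.1.val = cl 8 (dbl p.2.1) := rfl
    rw [e1]
    have hf := floor_ceil p.2.1
    unfold cl dbl
    generalize ⌊p.2.1⌋ = f at *
    generalize ⌈p.2.1⌉ = c at *
    omega
  · rw [home3]
    have e1 : (cellOf p).2.2.val = cl 6 (dbl p.2.2) := rfl
    rw [e1]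
    have hf := floor_ceil p.2.2
    unfold cl dbl
    generalize ⌊p.2.2⌋ = f at *
    generalize ⌈p.2.2⌉ = c at *
    omega

theorem inc_home_of_mem {σ : Cell} {p : C4 × ℝ × ℝ} (h : p ∈ Helper26.Maz.star σ) :
    inc σ (home p) :=
  inc_mono ((mem_star σ p).1 h) (inc_cellOf_home p)

/-- The doubled coordinates of the centre of a block. -/
def cD (c : Blk) : ℤ × ℤ × ℤ := (2 * (c.1.val : ℤ) + 1, 2 * (c.2.1.val : ℤ) - 1, 2 * (c.2.2.val : ℤ) - 1)

/-- The centre of a block. -/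
noncomputable def centre (c : Blk) : C4 × ℝ × ℝ := pt (cD c)

theorem le_top (σ : Cell) (c : Blk) : inc σ c ↔ le σ (cellD (cD c)) := by
  have k1 : ∀ (s : ZMod 8) (c : ZMod 4), (s = 2 * (c.val : ZMod 8) ∨ s = 2 * (c.val : ZMod 8) + 1 ∨
      s = 2 * (c.val : ZMod 8) + 2) ↔ le1 s ((2 * (c.val : ℤ) + 1 : ℤ) : ZMod 8) := by decide
  unfold inc le
  rw [k1]
  refine and_congr Iff.rfl (and_congr ?_ ?_)
  · have e1 : (cellD (cD c)).2.1.val = cl 8 (2 * (c.2.1.val : ℤ) - 1) := rfl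
    rw [e1]; unfold cl le2; omega
  · have e1 : (cellD (cD c)).2.2.val = cl 6 (2 * (c.2.2.val : ℤ) - 1) := rfl
    rw [e1]; unfold cl le2; omega

theorem centre_mem (σ : Cell) (c : Blk) : centre c ∈ Helper26.Maz.star σ ↔ inc σ c := by
  rw [mem_star, centre, cellOf_pt, le_top]

/-- The doubled coordinates of the vertices of a polygon. -/
def V (s : Fin 26 → ℤ × ℤ × ℤ) (D0 : ℤ × ℤ × ℤ) (i : ℕ) : ℤ × ℤ × ℤ :=
  (D0.1 + 2 * ∑ j : Fin 26, if j.val < i then (s j).1 else 0,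
    D0.2.1 + 2 * ∑ j : Fin 26, if j.val < i then (s j).2.1 else 0,
    D0.2.2 + 2 * ∑ j : Fin 26, if j.val < i then (s j).2.2 else 0)

/-- The lift of a polygon. -/
noncomputable def R (s : Fin 26 → ℤ × ℤ × ℤ) (p : ℝ × ℝ × ℝ) (t : ℝ) : ℝ × ℝ × ℝ :=
  (p.1 + ∑ i : Fin 26, max 0 (min 1 (t - i)) * (s i).1,
    p.2.1 + ∑ i : Fin 26, max 0 (min 1 (t - i)) * (s i).2.1,
    p.2.2 + ∑ i : Fin 26, max 0 (min 1 (t - i)) * (s i).2.2)

/-- The projection. -/
noncomputable def pr (q : ℝ × ℝ × ℝ) : C4 × ℝ × ℝ := ((q.1 : C4), q.2.1, q.2.2)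

theorem continuous_pr : Continuous pr := by
  unfold pr
  refine Continuous.prodMk ?_ (by fun_prop)
  exact (AddCircle.continuous_mk' 4).comp continuous_fst

theorem continuous_R (s : Fin 26 → ℤ × ℤ × ℤ) (p : ℝ × ℝ × ℝ) : Continuous (R s p) := by
  unfold R; fun_prop

theorem polygon_coe (s : Fin 26 → ℤ × ℤ × ℤ) (p : ℝ × ℝ × ℝ) (t : ℝ) (h0 : 0 ≤ t) (h1 : t < 26) :
    polygon s p (t : C26) = pr (R s p t) := by
  unfold polygon
  rw [AddCircle.liftIco_coe_apply (by constructor <;> linarith)]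
  rfl

theorem sum_formula (a : Fin 26 → ℤ) (i : Fin 26) (u : ℝ) (h0 : 0 ≤ u) (h1 : u ≤ 1) :
    ∑ j : Fin 26, max 0 (min 1 ((((i.val : ℕ) : ℝ) + u) - j)) * (a j : ℝ) =
      ((∑ j : Fin 26, if j.val < i.val then a j else 0 : ℤ) : ℝ) + u * a i := by
  have key : ∀ j : Fin 26, max 0 (min 1 ((((i.val : ℕ) : ℝ) + u) - j)) * (a j : ℝ) =
      ((if j.val < i.val then a j else 0 : ℤ) : ℝ) + (if j = i then u * a i else 0) := by
    intro j
    rcases lt_trichotomy j i with h | h | h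
    · have hv : j.val < i.val := h
      have h2 : ((j.val : ℕ) : ℝ) + 1 ≤ ((i.val : ℕ) : ℝ) := by exact_mod_cast hv
      rw [if_pos hv, if_neg (ne_of_lt h), min_eq_left (by linarith), max_eq_right (by norm_num)]
      ring
    · subst h
      rw [if_neg (lt_irrefl _), if_pos rfl]
      have : (((j.val : ℕ) : ℝ) + u) - j = u := by ring
      rw [this, min_eq_right h1, max_eq_right h0]; push_cast; ring
    · have hv : i.val < j.val := h
      have h2 : ((i.val : ℕ) : ℝ) + 1 ≤ ((j.val : ℕ) : ℝ) := by exact_mod_cast hv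
      rw [if_neg (by omega), if_neg (ne_of_gt h), max_eq_left]
      · push_cast; ring
      · rw [min_le_iff]; right; linarith
  rw [Finset.sum_congr rfl fun j _ => key j, Finset.sum_add_distrib]
  push_cast
  simp

/-- The points of the polygon. -/
theorem R_apply (s : Fin 26 → ℤ × ℤ × ℤ) (D0 : ℤ × ℤ × ℤ) (i : Fin 26) (u : ℝ) (h0 : 0 ≤ u)
    (h1 : u ≤ 1) :
    R s ((D0.1 : ℝ) / 2, (D0.2.1 : ℝ) / 2, (D0.2.2 : ℝ) / 2) (((i.val : ℕ) : ℝ) + u) =
      (((V s D0 i.val).1 : ℝ) / 2 + u * (s i).1, ((V s D0 i.val).2.1 : ℝ) / 2 + u * (s i).2.1,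
        ((V s D0 i.val).2.2 : ℝ) / 2 + u * (s i).2.2) := by
  unfold R V
  simp only
  rw [sum_formula (fun j => (s j).1) i u h0 h1, sum_formula (fun j => (s j).2.1) i u h0 h1,
    sum_formula (fun j => (s j).2.2) i u h0 h1]
  refine Prod.ext ?_ (Prod.ext ?_ ?_) <;> (simp only; push_cast; ring)

theorem V_succ (s : Fin 26 → ℤ × ℤ × ℤ) (D0 : ℤ × ℤ × ℤ) (i : Fin 26) :
    V s D0 (i.val + 1) = ((V s D0 i.val).1 + 2 * (s i).1, (V s D0 i.val).2.1 + 2 * (s i).2.1,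
      (V s D0 i.val).2.2 + 2 * (s i).2.2) := by
  have key : ∀ a : Fin 26 → ℤ, (∑ j : Fin 26, if j.val < i.val + 1 then a j else 0) =
      (∑ j : Fin 26, if j.val < i.val then a j else 0) + a i := by
    intro a
    have : ∀ j : Fin 26, (if j.val < i.val + 1 then a j else 0) =
        (if j.val < i.val then a j else 0) + (if j = i then a i else 0) := by
      intro j
      rcases lt_trichotomy j i with h | h | h
      · have hv : j.val < i.val := h
        rw [if_pos (by omega), if_pos hv, if_neg (ne_of_lt h), add_zero]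
      · subst h; simp
      · have hv : i.val < j.val := h
        rw [if_neg (by omega), if_neg (by omega), if_neg (ne_of_gt h), add_zero]
    rw [Finset.sum_congr rfl fun j _ => this j, Finset.sum_add_distrib]
    simp
  unfold V
  simp only
  rw [key, key, key]
  refine Prod.ext ?_ (Prod.ext ?_ ?_) <;> (simp only; ring)

end Pool.Agent.Helper7.MazBlk
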