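import Mathlib
import Pool.Agent.Helper7.Maz.BlkB

/-!
# MAZ-BLK, part C: Mazur's curve and the cells
-/

set_option autoImplicit false

namespace Pool.Agent.Helper7.MazBlk

open Pool.Agent.Helper26.Maz

/-- doubled coordinates of the vertices of the curve -/
def VK (i : ℕ) : ℤ × ℤ × ℤ := V steps (0, 0, 2) i

/-- doubled coordinates of the edges of the curve -/
def EK (i : Fin 26) : ℤ × ℤ × ℤ :=
  ((VK i).1 + (steps i).1, (VK i).2.1 + (steps i).2.1, (VK i).2.2 + (steps i).2.2)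

theorem VK_even (i : ℕ) : (VK i).1 % 2 = 0 ∧ (VK i).2.1 % 2 = 0 ∧ (VK i).2.2 % 2 = 0 := by
  unfold VK V; simp only; omega

theorem Kc_of_VK : ∀ i : Fin 26, cellD (VK i) ∈ Kc ∧ cellD (EK i) ∈ Kc := by
  decide +kernel

theorem Kc_eq : Kc = (List.finRange 26).flatMap fun i : Fin 26 => [cellD (VK i), cellD (EK i)] := by
  decide +kernel

theorem VK_of_Kc (τ : Cell) (h : τ ∈ Kc) : ∃ i : Fin 26, τ = cellD (VK i) ∨ τ = cellD (EK i) := by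
  rw [Kc_eq, List.mem_flatMap] at h
  obtain ⟨i, -, hi⟩ := h
  refine ⟨i, ?_⟩
  simpa using hi

theorem VK_range : ∀ i : Fin 26, (0 ≤ (VK i).2.1 ∧ (VK i).2.1 ≤ 6 ∧ 0 ≤ (VK i).2.2 ∧
    (VK i).2.2 ≤ 4) ∧ (0 ≤ (EK i).2.1 ∧ (EK i).2.1 ≤ 6 ∧ 0 ≤ (EK i).2.2 ∧ (EK i).2.2 ≤ 4) := by
  decide +kernel

theorem steps_dir : ∀ i : Fin 26,
    (((steps i).1 = 1 ∨ (steps i).1 = -1) ∧ (steps i).2.1 = 0 ∧ (steps i).2.2 = 0) ∨
    ((steps i).1 = 0 ∧ ((steps i).2.1 = 1 ∨ (steps i).2.1 = -1) ∧ (steps i).2.2 = 0) ∨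
    ((steps i).1 = 0 ∧ (steps i).2.1 = 0 ∧ ((steps i).2.2 = 1 ∨ (steps i).2.2 = -1)) := by
  decide +kernel

/-- candidates for the faces -/
def f1 (t : ZMod 8) : List (ZMod 8) := if t.val % 2 = 0 then [t] else [t, t + 1, t - 1]

/-- candidates for the faces -/
def f2 (t : Fin 9) : List (Fin 9) := if t.val % 2 = 1 then [t] else [t, t + 1, t - 1]

/-- candidates for the faces -/
def f3 (t : Fin 7) : List (Fin 7) := if t.val % 2 = 1 then [t] else [t, t + 1, t - 1]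

theorem f1_spec : ∀ s t : ZMod 8, le1 s t → s ∈ f1 t := by decide +kernel

theorem f2_spec : ∀ s t : Fin 9, le2 s.val t.val → s ∈ f2 t := by decide +kernel

theorem f3_spec : ∀ s t : Fin 7, le2 s.val t.val → s ∈ f3 t := by decide +kernel

theorem Kc_faces : ∀ τ ∈ Kc, ∀ s1 ∈ f1 τ.1, ∀ s2 ∈ f2 τ.2.1, ∀ s3 ∈ f3 τ.2.2,
    ((s1, s2, s3) : Cell) ∈ Kc := by
  decide +kernel

theorem Kc_down (τ : Cell) (hτ : τ ∈ Kc) (σ : Cell) (h : le σ τ) : σ ∈ Kc :=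
  Kc_faces τ hτ σ.1 (f1_spec _ _ h.1) σ.2.1 (f2_spec _ _ h.2.1) σ.2.2 (f3_spec _ _ h.2.2)

theorem dbl_mid {D s : ℤ} (hD : D % 2 = 0) (hs : s = 0 ∨ s = 1 ∨ s = -1) {u : ℝ} (h0 : 0 < u)
    (h1 : u < 1) : dbl ((D : ℝ) / 2 + u * s) = D + s := by
  obtain ⟨m, hm⟩ : ∃ m, D = 2 * m := ⟨D / 2, by omega⟩
  subst hm
  unfold dbl
  rcases hs with rfl | rfl | rfl
  · have : (((2 * m : ℤ) : ℝ)) / 2 + u * ((0 : ℤ) : ℝ) = (m : ℝ) := by push_cast; ring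
    rw [this, Int.floor_intCast, Int.ceil_intCast]; ring
  · have e1 : ⌊(((2 * m : ℤ) : ℝ)) / 2 + u * ((1 : ℤ) : ℝ)⌋ = m := by
      rw [Int.floor_eq_iff]; push_cast; constructor <;> linarith
    have e2 : ⌈(((2 * m : ℤ) : ℝ)) / 2 + u * ((1 : ℤ) : ℝ)⌉ = m + 1 := by
      rw [Int.ceil_eq_iff]; push_cast; constructor <;> linarith
    rw [e1, e2]; ring
  · have e1 : ⌊(((2 * m : ℤ) : ℝ)) / 2 + u * ((-1 : ℤ) : ℝ)⌋ = m - 1 := by
      rw [Int.floor_eq_iff]; push_cast; constructor <;> linarith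
    have e2 : ⌈(((2 * m : ℤ) : ℝ)) / 2 + u * ((-1 : ℤ) : ℝ)⌉ = m := by
      rw [Int.ceil_eq_iff]; push_cast; constructor <;> linarith
    rw [e1, e2]; ring

theorem eq_of_dbl_even {D : ℤ} (hD : D % 2 = 0) {x : ℝ} (h : dbl x = D) : x = (D : ℝ) / 2 := by
  unfold dbl at h
  have hf := floor_ceil x
  have h1 : ⌊x⌋ = D / 2 := by omega
  have h2 : ⌈x⌉ = D / 2 := by omega
  have h3 := Int.floor_le x
  have h4 := Int.le_ceil x
  rw [h1] at h3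
  rw [h2] at h4
  have h5 : x = ((D / 2 : ℤ) : ℝ) := le_antisymm h4 h3
  rw [h5]
  have h6 : D = 2 * (D / 2) := by omega
  have h7 : (D : ℝ) = 2 * ((D / 2 : ℤ) : ℝ) := by exact_mod_cast h6
  linarith

theorem exists_of_dbl_odd {D s : ℤ} (hD : D % 2 = 0) (hs : s = 1 ∨ s = -1) {x : ℝ}
    (h : dbl x = D + s) : ∃ u : ℝ, 0 < u ∧ u < 1 ∧ x = (D : ℝ) / 2 + u * s := by
  obtain ⟨m, hm⟩ : ∃ m, D = 2 * m := ⟨D / 2, by omega⟩
  subst hm
  unfold dbl at h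
  have hf := floor_ceil x
  rcases hs with rfl | rfl
  · have h1 : ⌊x⌋ = m := by omega
    have h2 : ⌈x⌉ = m + 1 := by omega
    rw [Int.floor_eq_iff] at h1
    rw [Int.ceil_eq_iff] at h2
    push_cast at h1 h2
    refine ⟨x - m, by linarith, by linarith, by push_cast; ring⟩
  · have h1 : ⌊x⌋ = m - 1 := by omega
    have h2 : ⌈x⌉ = m := by omega
    rw [Int.floor_eq_iff] at h1
    rw [Int.ceil_eq_iff] at h2
    push_cast at h1 h2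
    refine ⟨m - x, by linarith, by linarith, by push_cast; ring⟩

theorem knot_apply (i : Fin 26) (u : ℝ) (h0 : 0 ≤ u) (h1 : u < 1) :
    knot 0 ((((i.val : ℕ) : ℝ) + u : ℝ) : C26) =
      (((((VK i).1 : ℝ) / 2 + u * (steps i).1 : ℝ) : C4),
        ((VK i).2.1 : ℝ) / 2 + u * (steps i).2.1, ((VK i).2.2 : ℝ) / 2 + u * (steps i).2.2) := by
  unfold knot
  have hi : ((i.val : ℕ) : ℝ) ≤ 25 := by
    have : i.val ≤ 25 := by omega
    exact_mod_cast this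
  have hi0 : (0 : ℝ) ≤ ((i.val : ℕ) : ℝ) := Nat.cast_nonneg _
  rw [polygon_coe _ _ _ (by linarith) (by linarith)]
  have := R_apply steps (0, 0, 2) i u h0 h1.le
  have e : ((0 : ℝ), (0 : ℝ), (1 : ℝ) + 0) = ((((0, 0, 2) : ℤ × ℤ × ℤ).1 : ℝ) / 2,
      (((0, 0, 2) : ℤ × ℤ × ℤ).2.1 : ℝ) / 2, (((0, 0, 2) : ℤ × ℤ × ℤ).2.2 : ℝ) / 2) := by
    norm_num
  rw [e, this]
  rfl

theorem steps_val (i : Fin 26) : ((steps i).1 = 0 ∨ (steps i).1 = 1 ∨ (steps i).1 = -1) ∧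
    ((steps i).2.1 = 0 ∨ (steps i).2.1 = 1 ∨ (steps i).2.1 = -1) ∧
    ((steps i).2.2 = 0 ∨ (steps i).2.2 = 1 ∨ (steps i).2.2 = -1) := by
  rcases steps_dir i with h | h | h <;> omega

theorem cellOf_mem_Kc_of_mem {p : C4 × ℝ × ℝ} (hp : p ∈ K0) : cellOf p ∈ Kc := by
  obtain ⟨t, rfl⟩ := hp
  obtain ⟨t0, ht0, rfl⟩ := AddCircle.eq_coe_Ico t
  have hn : ⌊t0⌋₊ < 26 := by
    rw [Nat.floor_lt ht0.1]; exact_mod_cast ht0.2
  set i : Fin 26 := ⟨⌊t0⌋₊, hn⟩ with hi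
  have hu0 : 0 ≤ t0 - ((i.val : ℕ) : ℝ) := by
    have := Nat.floor_le ht0.1; simp only [hi]; linarith
  have hu1 : t0 - ((i.val : ℕ) : ℝ) < 1 := by
    have := Nat.lt_floor_add_one t0; simp only [hi]; linarith
  have ht : t0 = ((i.val : ℕ) : ℝ) + (t0 - ((i.val : ℕ) : ℝ)) := by ring
  rw [ht, knot_apply i _ hu0 hu1, cellOf_coe]
  rcases hu0.eq_or_lt with h | h
  · rw [← h]
    simp only [zero_mul, add_zero]
    rw [dbl_half, dbl_half, dbl_half]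
    exact (Kc_of_VK i).1
  · rw [dbl_mid (VK_even i).1 (steps_val i).1 h hu1, dbl_mid (VK_even i).2.1 (steps_val i).2.1 h hu1,
      dbl_mid (VK_even i).2.2 (steps_val i).2.2 h hu1]
    exact (Kc_of_VK i).2

theorem cell_inj {p : C4 × ℝ × ℝ} {D : ℤ × ℤ × ℤ} (h : cellOf p = cellD D) (h1 : 0 ≤ D.2.1)
    (h2 : D.2.1 ≤ 6) (h3 : 0 ≤ D.2.2) (h4 : D.2.2 ≤ 4) :
    ∃ y : ℝ, p.1 = (y : C4) ∧ dbl y = D.1 ∧ dbl p.2.1 = D.2.1 ∧ dbl p.2.2 = D.2.2 := by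
  have e1 : ((dbl (rep p.1) : ℤ) : ZMod 8) = ((D.1 : ℤ) : ZMod 8) := congrArg Prod.fst h
  have e2 : cl 8 (dbl p.2.1) = cl 8 D.2.1 := congrArg (fun c : Cell => c.2.1.val) h
  have e3 : cl 6 (dbl p.2.2) = cl 6 D.2.2 := congrArg (fun c : Cell => c.2.2.val) h
  unfold cl at e2 e3
  rw [ZMod.intCast_eq_intCast_iff_dvd_sub] at e1
  obtain ⟨n, hn⟩ := e1
  refine ⟨rep p.1 + ((4 * n : ℤ) : ℝ), ?_, ?_, by omega, by omega⟩
  · conv_lhs => rw [← rep_coe p.1]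
    rw [AddCircle.coe_add]
    have : ((((4 * n) : ℤ) : ℝ) : C4) = 0 := by
      rw [AddCircle.coe_eq_zero_iff]
      exact ⟨n, by rw [zsmul_eq_mul]; push_cast; ring⟩
    rw [this, add_zero]
  · rw [dbl_add_int]; push_cast at hn; omega

theorem mem_K0_of_cellOf {p : C4 × ℝ × ℝ} (hp : cellOf p ∈ Kc) : p ∈ K0 := by
  obtain ⟨i, hi | hi⟩ := VK_of_Kc _ hp
  · obtain ⟨⟨r1, r2, r3, r4⟩, -⟩ := VK_range i
    obtain ⟨y, hy, e1, e2, e3⟩ := cell_inj hi r1 r2 r3 r4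
    refine ⟨((((i.val : ℕ) : ℝ) + 0 : ℝ) : C26), ?_⟩
    rw [knot_apply i 0 le_rfl one_pos]
    have := eq_of_dbl_even (VK_even i).1 e1
    refine Prod.ext ?_ (Prod.ext ?_ ?_)
    · rw [hy, this]; simp
    · rw [eq_of_dbl_even (VK_even i).2.1 e2]; simp
    · rw [eq_of_dbl_even (VK_even i).2.2 e3]; simp
  · obtain ⟨-, ⟨r1, r2, r3, r4⟩⟩ := VK_range i
    obtain ⟨y, hy, e1, e2, e3⟩ := cell_inj hi r1 r2 r3 r4
    have v := VK_even i
    have e1' : dbl y = (VK i).1 + (steps i).1 := e1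
    have e2' : dbl p.2.1 = (VK i).2.1 + (steps i).2.1 := e2
    have e3' : dbl p.2.2 = (VK i).2.2 + (steps i).2.2 := e3
    have main : ∃ u : ℝ, 0 < u ∧ u < 1 ∧ y = ((VK i).1 : ℝ) / 2 + u * (steps i).1 ∧
        p.2.1 = ((VK i).2.1 : ℝ) / 2 + u * (steps i).2.1 ∧
        p.2.2 = ((VK i).2.2 : ℝ) / 2 + u * (steps i).2.2 := by
      rcases steps_dir i with ⟨h1, h2, h3⟩ | ⟨h1, h2, h3⟩ | ⟨h1, h2, h3⟩
      · obtain ⟨u, u0, u1, hu⟩ := exists_of_dbl_odd v.1 h1 e1'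
        refine ⟨u, u0, u1, hu, ?_, ?_⟩
        · rw [h2, add_zero] at e2'
          rw [h2, eq_of_dbl_even v.2.1 e2']; simp
        · rw [h3, add_zero] at e3'
          rw [h3, eq_of_dbl_even v.2.2 e3']; simp
      · obtain ⟨u, u0, u1, hu⟩ := exists_of_dbl_odd v.2.1 h2 e2'
        refine ⟨u, u0, u1, ?_, hu, ?_⟩
        · rw [h1, add_zero] at e1'
          rw [h1, eq_of_dbl_even v.1 e1']; simp
        · rw [h3, add_zero] at e3'
          rw [h3, eq_of_dbl_even v.2.2 e3']; simp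
      · obtain ⟨u, u0, u1, hu⟩ := exists_of_dbl_odd v.2.2 h3 e3'
        refine ⟨u, u0, u1, ?_, ?_, hu⟩
        · rw [h1, add_zero] at e1'
          rw [h1, eq_of_dbl_even v.1 e1']; simp
        · rw [h2, add_zero] at e2'
          rw [h2, eq_of_dbl_even v.2.1 e2']; simp
    obtain ⟨u, u0, u1, m1, m2, m3⟩ := main
    refine ⟨((((i.val : ℕ) : ℝ) + u : ℝ) : C26), ?_⟩
    rw [knot_apply i u u0.le u1]
    refine Prod.ext ?_ (Prod.ext ?_ ?_)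
    · rw [hy, m1]
    · rw [m2]
    · rw [m3]

theorem mem_K0 (p : C4 × ℝ × ℝ) : p ∈ K0 ↔ cellOf p ∈ Kc :=
  ⟨cellOf_mem_Kc_of_mem, mem_K0_of_cellOf⟩

theorem star_disj {σ : Cell} (hσ : σ ∉ Kc) {p : C4 × ℝ × ℝ} (hp : p ∈ Helper26.Maz.star σ) :
    cellOf p ∉ Kc := fun h => hσ (Kc_down _ h _ ((mem_star σ p).1 hp))

theorem star_sub {σ : Cell} (hσ : σ ∉ Kc) : Helper26.Maz.star σ ⊆ K0ᶜ := by
  intro p hp h
  exact star_disj hσ hp ((mem_K0 p).1 h)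

/-- joins -/
theorem join_exists (σ σ' τ0 : Cell) (h : le σ τ0) (h' : le σ' τ0) :
    ∃ J : Cell, ∀ τ : Cell, le J τ ↔ le σ τ ∧ le σ' τ := by
  have k1 : ∀ s s' t0 : ZMod 8, le1 s t0 → le1 s' t0 → ∃ J : ZMod 8, ∀ t : ZMod 8,
      le1 J t ↔ le1 s t ∧ le1 s' t := by decide +kernel
  have k2 : ∀ s s' t0 : Fin 9, le2 s.val t0.val → le2 s'.val t0.val → ∃ J : Fin 9, ∀ t : Fin 9,
      le2 J.val t.val ↔ le2 s.val t.val ∧ le2 s'.val t.val := by decide +kernel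
  have k3 : ∀ s s' t0 : Fin 7, le2 s.val t0.val → le2 s'.val t0.val → ∃ J : Fin 7, ∀ t : Fin 7,
      le2 J.val t.val ↔ le2 s.val t.val ∧ le2 s'.val t.val := by decide +kernel
  obtain ⟨J1, h1⟩ := k1 _ _ _ h.1 h'.1
  obtain ⟨J2, h2⟩ := k2 _ _ _ h.2.1 h'.2.1
  obtain ⟨J3, h3⟩ := k3 _ _ _ h.2.2 h'.2.2
  refine ⟨(J1, J2, J3), fun τ => ?_⟩
  unfold le
  rw [h1 τ.1, h2 τ.2.1, h3 τ.2.2]
  tauto

end Pool.Agent.Helper7.MazBlk

namespace Pool.Agent.Helper26.Maz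

open Pool.Agent.Helper7.MazBlk

theorem isOpen_star (σ : Cell) : IsOpen (star σ) := by
  unfold star
  have h1 : IsOpen {p : C4 × ℝ × ℝ | ∃ y : ℝ, p.1 = (y : C4) ∧
      |y - (σ.1.val : ℝ) / 2| < if σ.1.val % 2 = 0 then 1 else 1 / 2} := by
    have : {p : C4 × ℝ × ℝ | ∃ y : ℝ, p.1 = (y : C4) ∧
        |y - (σ.1.val : ℝ) / 2| < if σ.1.val % 2 = 0 then 1 else 1 / 2} =
        Prod.fst ⁻¹' ((fun y : ℝ => (y : C4)) ''
          {y : ℝ | |y - (σ.1.val : ℝ) / 2| < if σ.1.val % 2 = 0 then 1 else 1 / 2}) := by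
      ext p
      constructor
      · rintro ⟨y, hy, h⟩; exact ⟨y, h, hy.symm⟩
      · rintro ⟨y, h, hy⟩; exact ⟨y, hy.symm, h⟩
    rw [this]
    refine IsOpen.preimage continuous_fst ?_
    refine QuotientAddGroup.isOpenMap_coe _ ?_
    exact isOpen_lt (by fun_prop) continuous_const
  have himp : ∀ (P : Prop) (s : Set (C4 × ℝ × ℝ)), IsOpen s → IsOpen {p | P → p ∈ s} := by
    intro P s hs
    by_cases hP : P
    · simpa [hP] using hs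
    · simp [hP]
  have c1 : Continuous fun p : C4 × ℝ × ℝ => p.2.1 := by fun_prop
  have c2 : Continuous fun p : C4 × ℝ × ℝ => p.2.2 := by fun_prop
  refine h1.inter (IsOpen.inter (IsOpen.inter ?_ ?_) (IsOpen.inter ?_ ?_))
  · exact himp _ _ (isOpen_lt continuous_const c1)
  · exact himp _ _ (isOpen_lt c1 continuous_const)
  · exact himp _ _ (isOpen_lt continuous_const c2)
  · exact himp _ _ (isOpen_lt c2 continuous_const)

theorem K0_compl : K0ᶜ = ⋃ σ ∈ {σ : Cell | σ ∉ Kc}, star σ := by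
  ext p
  simp only [Set.mem_iUnion, exists_prop]
  constructor
  · intro hp
    exact ⟨cellOf p, fun h => hp ((mem_K0 p).2 h), mem_star_cellOf p⟩
  · rintro ⟨σ, hσ, hp⟩
    exact star_sub hσ hp

end Pool.Agent.Helper26.Maz
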