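import Mathlib
import Pool.Agent.Helper7.Maz.BlkC

/-!
# MAZ-BLK, part D: paths in stars, labels
-/

set_option autoImplicit false

namespace Pool.Agent.Helper7.MazBlk

open Pool.Agent.Helper26.Maz

section general

variable {X : Type*} [TopologicalSpace X] {Γ : Type*} [Group Γ]

theorem hol_congr {S : Set X} (H : HolOn S Γ) {x y x' y' : X} (γ : Path x y) (γ' : Path x' y')
    (h : ∀ t, γ t = γ' t) : H.hol γ = H.hol γ' := by
  have hx : x = x' := by rw [← γ.source, ← γ'.source]; exact h 0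
  have hy : y = y' := by rw [← γ.target, ← γ'.target]; exact h 1
  subst hx; subst hy
  have : γ = γ' := Path.ext (funext h)
  rw [this]

theorem hol_refl' {S : Set X} (H : HolOn S Γ) {x : X} (hx : x ∈ S) :
    H.hol (Path.refl x) = 1 := by
  have h := H.trans (Path.refl x) (Path.refl x) (fun t => hx) (fun t => hx)
  rw [Path.refl_trans_refl] at h
  exact left_eq_mul.1 h

/-- The straight line homotopy. -/
def lineHom {E : Type*} [NormedAddCommGroup E] [NormedSpace ℝ E] {x y : E} (γ γ' : Path x y) :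
    Path.Homotopy γ γ' where
  toFun p := (1 - (p.1 : ℝ)) • γ p.2 + (p.1 : ℝ) • γ' p.2
  continuous_toFun := by fun_prop
  map_zero_left t := by simp
  map_one_left t := by simp
  prop' s t ht := by
    rcases ht with rfl | ht
    · simp [← add_smul]
    · rw [Set.mem_singleton_iff] at ht
      subst ht
      simp [← add_smul]

theorem hol_line {E : Type*} [NormedAddCommGroup E] [NormedSpace ℝ E] {x y : E} {C : Set E}
    (hC : Convex ℝ C) (γ γ' : Path x y) (hγ : ∀ t, γ t ∈ C) (hγ' : ∀ t, γ' t ∈ C) {f : E → X}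
    (hf : Continuous f) {S : Set X} (hS : Set.MapsTo f C S) (H : HolOn S Γ) :
    H.hol (γ.map hf) = H.hol (γ'.map hf) := by
  refine H.homot _ _ ((lineHom γ γ').map ⟨f, hf⟩) fun p => ?_
  refine hS ?_
  exact hC (hγ p.2) (hγ' p.2) (by linarith [p.1.2.2]) p.1.2.1 (by ring)

/-- the path `f` on `[a,b]` -/
def seg {f : ℝ → X} (hf : Continuous f) (a b : ℝ) : Path (f a) (f b) where
  toFun t := f (a + t * (b - a))
  continuous_toFun := by fun_prop
  source' := by simp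
  target' := by simp

theorem seg_apply {f : ℝ → X} (hf : Continuous f) (a b : ℝ) (t : unitInterval) :
    seg hf a b t = f (a + t * (b - a)) := rfl

/-- subdivision -/
theorem hol_seg {f : ℝ → X} (hf : Continuous f) {a b c : ℝ} (hab : a ≤ b) (hbc : b ≤ c)
    {S : Set X} (hS : ∀ t, a ≤ t → t ≤ c → f t ∈ S) (H : HolOn S Γ) :
    H.hol (seg hf a c) = H.hol (seg hf a b) * H.hol (seg hf b c) := by
  have hid : Continuous (id : ℝ → ℝ) := continuous_id
  have m1 : ∀ (u v : ℝ), a ≤ u → u ≤ v → v ≤ c → ∀ t : unitInterval,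
      a ≤ seg hid u v t ∧ seg hid u v t ≤ c := by
    intro u v hu huv hv t
    rw [seg_apply]
    have h0 := t.2.1
    have h1 := t.2.2
    simp only [id]
    constructor
    · nlinarith
    · nlinarith
  have mS : ∀ (u v : ℝ), a ≤ u → u ≤ v → v ≤ c → ∀ t : unitInterval, seg hf u v t ∈ S := by
    intro u v hu huv hv t
    have := m1 u v hu huv hv t
    exact hS _ this.1 this.2
  rw [← H.trans _ _ (mS a b le_rfl hab hbc) (mS b c hab hbc le_rfl)]
  have key := hol_line (X := X) (convex_Icc a c) (seg hid a c) ((seg hid a b).trans (seg hid b c))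
    (fun t => m1 a c le_rfl (hab.trans hbc) le_rfl t) ?_ hf
    (S := S) (fun t ht => hS t ht.1 ht.2) H
  · rw [hol_congr H (seg hf a c) ((seg hid a c).map hf) (fun t => rfl), key]
    refine hol_congr H _ _ fun t => ?_
    rw [Path.map_trans]
    rfl
  · intro t
    rw [Path.trans_apply]
    split_ifs with h
    · exact m1 a b le_rfl hab hbc _
    · exact m1 b c hab hbc le_rfl _

theorem hol_map_seg {f : ℝ → X} (hf : Continuous f) (ℓ : C(C26, X))
    (h : ∀ t : ℝ, 0 ≤ t → t ≤ 26 → ℓ ((t : ℝ) : C26) = f t) {S : Set X} (H : HolOn S Γ) :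
    H.loop ℓ = H.hol (seg hf 0 26) := by
  unfold HolOn.loop
  refine hol_congr H _ _ fun t => ?_
  show ℓ ((26 * (t : ℝ) : ℝ) : C26) = f (0 + (t : ℝ) * (26 - 0))
  rw [h _ (by have := t.2.1; positivity) (by have := t.2.2; linarith)]
  congr 1; ring

end general

/-- the lift of the star of a cell -/
def starL (σ : Cell) : Set (ℝ × ℝ × ℝ) :=
  {q | (|q.1 - (σ.1.val : ℝ) / 2| < if σ.1.val % 2 = 0 then 1 else 1 / 2) ∧
    ((2 ≤ σ.2.1.val → ((σ.2.1.val / 2 : ℕ) : ℝ) - 1 < q.2.1) ∧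
      (σ.2.1.val ≤ 6 → q.2.1 < (((σ.2.1.val + 1) / 2 : ℕ) : ℝ))) ∧
    ((2 ≤ σ.2.2.val → ((σ.2.2.val / 2 : ℕ) : ℝ) - 1 < q.2.2) ∧
      (σ.2.2.val ≤ 4 → q.2.2 < (((σ.2.2.val + 1) / 2 : ℕ) : ℝ)))}

theorem convex_starL (σ : Cell) : Convex ℝ (starL σ) := by
  intro p hp q hq a b ha hb hab
  obtain ⟨p1, ⟨p2, p3⟩, ⟨p4, p5⟩⟩ := hp
  obtain ⟨q1, ⟨q2, q3⟩, ⟨q4, q5⟩⟩ := hq
  have hb' : b = 1 - a := by linarith
  subst hb'
  have low : ∀ {c u v : ℝ}, c < u → c < v → c < a * u + (1 - a) * v := by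
    intro c u v hu hv
    rcases ha.eq_or_lt with h | h
    · rw [← h]; linarith
    · nlinarith
  have upp : ∀ {c u v : ℝ}, u < c → v < c → a * u + (1 - a) * v < c := by
    intro c u v hu hv
    rcases ha.eq_or_lt with h | h
    · rw [← h]; linarith
    · nlinarith
  refine ⟨?_, ⟨fun h => ?_, fun h => ?_⟩, ⟨fun h => ?_, fun h => ?_⟩⟩
  · rw [abs_lt] at p1 q1 ⊢
    simp only [Prod.fst_add, Prod.smul_fst, smul_eq_mul]
    constructor
    · have := low p1.1 q1.1; linarith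
    · have := upp p1.2 q1.2; linarith
  · exact low (p2 h) (q2 h)
  · exact upp (p3 h) (q3 h)
  · exact low (p4 h) (q4 h)
  · exact upp (p5 h) (q5 h)

theorem pr_mem {σ : Cell} {q : ℝ × ℝ × ℝ} (h : q ∈ starL σ) : pr q ∈ Helper26.Maz.star σ :=
  ⟨⟨q.1, rfl, h.1⟩, h.2⟩

theorem star_eq (σ : Cell) : Helper26.Maz.star σ = pr '' starL σ := by
  ext p
  constructor
  · rintro ⟨⟨y, hy, h1⟩, h2⟩
    exact ⟨(y, p.2.1, p.2.2), ⟨h1, h2⟩, by rw [pr, ← hy]⟩
  · rintro ⟨q, hq, rfl⟩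
    exact pr_mem hq

/-- the lift -/
noncomputable def lft (a : ℝ) (p : C4 × ℝ × ℝ) : ℝ × ℝ × ℝ :=
  (((AddCircle.equivIco 4 a p.1 : Set.Ico a (a + 4)) : ℝ), p.2.1, p.2.2)

theorem pr_lft (a : ℝ) (p : C4 × ℝ × ℝ) : pr (lft a p) = p := by
  unfold pr lft
  simp only [AddCircle.coe_equivIco]

theorem lft_mem {σ : Cell} {p : C4 × ℝ × ℝ} (hp : p ∈ Helper26.Maz.star σ) :
    lft ((σ.1.val : ℝ) / 2 - 2) p ∈ starL σ ∧ p.1 ≠ ((((σ.1.val : ℝ) / 2 - 2 : ℝ)) : C4) := by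
  obtain ⟨⟨y, hy, h1⟩, h2⟩ := hp
  have hr : |y - (σ.1.val : ℝ) / 2| < 1 := by
    refine h1.trans_le ?_
    split_ifs <;> norm_num
  rw [abs_lt] at hr
  have hm : y ∈ Set.Ico ((σ.1.val : ℝ) / 2 - 2) ((σ.1.val : ℝ) / 2 - 2 + 4) := by
    constructor <;> linarith
  constructor
  · unfold lft
    refine ⟨?_, h2⟩
    rw [hy]
    simp only
    rw [AddCircle.equivIco_coe_of_mem hm]
    exact h1
  · rw [hy]
    intro h
    rw [AddCircle.coe_eq_coe_iff_of_mem_Ico hm (by constructor <;> linarith)] at h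
    linarith

/-- the lift of a path in a star -/
noncomputable def lftPath {σ : Cell} {x y : C4 × ℝ × ℝ} (γ : Path x y)
    (hγ : ∀ t, γ t ∈ Helper26.Maz.star σ) :
    Path (lft ((σ.1.val : ℝ) / 2 - 2) x) (lft ((σ.1.val : ℝ) / 2 - 2) y) where
  toFun t := lft ((σ.1.val : ℝ) / 2 - 2) (γ t)
  continuous_toFun := by
    refine continuous_iff_continuousAt.2 fun t => ?_
    have h := (lft_mem (hγ t)).2
    unfold lft
    refine ContinuousAt.prodMk ?_ (by fun_prop)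
    have h1 : ContinuousAt (fun z : C4 =>
        ((AddCircle.equivIco 4 ((σ.1.val : ℝ) / 2 - 2) z : Set.Ico _ _) : ℝ)) (γ t).1 :=
      continuousAt_subtype_val.comp (AddCircle.continuousAt_equivIco 4 _ h)
    exact ContinuousAt.comp (f := fun t => (γ t).1) h1 (by fun_prop)
  source' := by simp
  target' := by simp

/-- Two paths with the same ends in a star have the same holonomy. -/
theorem hol_star {Γ : Type*} [Group Γ] {S : Set (C4 × ℝ × ℝ)} (H : HolOn S Γ) {σ : Cell}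
    (hS : Helper26.Maz.star σ ⊆ S) {x y : C4 × ℝ × ℝ} (γ γ' : Path x y)
    (hγ : ∀ t, γ t ∈ Helper26.Maz.star σ) (hγ' : ∀ t, γ' t ∈ Helper26.Maz.star σ) :
    H.hol γ = H.hol γ' := by
  have h := hol_line (convex_starL σ) (lftPath γ hγ) (lftPath γ' hγ')
    (fun t => (lft_mem (hγ t)).1) (fun t => (lft_mem (hγ' t)).1) continuous_pr
    (S := S) (fun q hq => hS (pr_mem hq)) H
  rw [hol_congr H γ ((lftPath γ hγ).map continuous_pr) (fun t => (pr_lft _ _).symm), h]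
  exact hol_congr H _ _ (fun t => pr_lft _ _)

theorem star_path {σ : Cell} {x y : C4 × ℝ × ℝ} (hx : x ∈ Helper26.Maz.star σ)
    (hy : y ∈ Helper26.Maz.star σ) : ∃ γ : Path x y, ∀ t, γ t ∈ Helper26.Maz.star σ := by
  have h : IsPathConnected (Helper26.Maz.star σ) := by
    rw [star_eq]
    refine IsPathConnected.image ?_ continuous_pr
    refine (convex_starL σ).isPathConnected ?_
    exact ⟨_, (lft_mem hx).1⟩
  obtain ⟨γ, hγ⟩ := h.joinedIn x hx y hy
  exact ⟨γ, hγ⟩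

/-- A path in the intersection of two stars. -/
theorem star_inter_path {σ σ' : Cell} {x y : C4 × ℝ × ℝ} (hx : x ∈ Helper26.Maz.star σ)
    (hy : y ∈ Helper26.Maz.star σ) (hx' : x ∈ Helper26.Maz.star σ')
    (hy' : y ∈ Helper26.Maz.star σ') : ∃ γ : Path x y,
      (∀ t, γ t ∈ Helper26.Maz.star σ) ∧ ∀ t, γ t ∈ Helper26.Maz.star σ' := by
  obtain ⟨J, hJ⟩ := join_exists σ σ' (cellOf x) ((mem_star _ _).1 hx) ((mem_star _ _).1 hx')
  obtain ⟨γ, hγ⟩ := star_path (σ := J) (x := x) (y := y)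
    ((mem_star _ _).2 ((hJ _).2 ⟨(mem_star _ _).1 hx, (mem_star _ _).1 hx'⟩))
    ((mem_star _ _).2 ((hJ _).2 ⟨(mem_star _ _).1 hy, (mem_star _ _).1 hy'⟩))
  refine ⟨γ, fun t => ?_, fun t => ?_⟩
  · exact (mem_star _ _).2 ((hJ _).1 ((mem_star _ _).1 (hγ t))).1
  · exact (mem_star _ _).2 ((hJ _).1 ((mem_star _ _).1 (hγ t))).2

/-- The local potential function. -/
theorem exists_hh {Γ : Type*} [Group Γ] (H : HolOn (K0ᶜ) Γ) :
    ∃ hh : C4 × ℝ × ℝ → C4 × ℝ × ℝ → Γ, ∀ σ : Cell, σ ∉ Kc →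
      ∀ {x y : C4 × ℝ × ℝ} (γ : Path x y), (∀ t, γ t ∈ Helper26.Maz.star σ) →
        H.hol γ = hh x y := by
  classical
  refine ⟨fun x y => if h : ∃ γ : Path x y, ∃ σ : Cell, σ ∉ Kc ∧
      ∀ t, γ t ∈ Helper26.Maz.star σ then H.hol h.choose else 1, ?_⟩
  intro σ hσ x y γ hγ
  have h : ∃ γ : Path x y, ∃ σ : Cell, σ ∉ Kc ∧ ∀ t, γ t ∈ Helper26.Maz.star σ := ⟨γ, σ, hσ, hγ⟩
  beta_reduce
  rw [dif_pos h]
  obtain ⟨σ', hσ', h'⟩ := h.choose_spec
  have ex := hγ 0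
  have ey := hγ 1
  have ex' := h' 0
  have ey' := h' 1
  rw [Path.source] at ex ex'
  rw [Path.target] at ey ey'
  obtain ⟨δ, hδ, hδ'⟩ := star_inter_path ex ey ex' ey'
  rw [hol_star H (star_sub hσ) γ δ hγ hδ]
  exact hol_star H (star_sub hσ') δ _ hδ' h'

theorem hh_mul {Γ : Type*} [Group Γ] (H : HolOn (K0ᶜ) Γ)
    {hh : C4 × ℝ × ℝ → C4 × ℝ × ℝ → Γ} (h : ∀ σ : Cell, σ ∉ Kc →
      ∀ {x y : C4 × ℝ × ℝ} (γ : Path x y), (∀ t, γ t ∈ Helper26.Maz.star σ) →
        H.hol γ = hh x y) {σ : Cell} (hσ : σ ∉ Kc) {x y z : C4 × ℝ × ℝ}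
    (hx : x ∈ Helper26.Maz.star σ) (hy : y ∈ Helper26.Maz.star σ)
    (hz : z ∈ Helper26.Maz.star σ) : hh x y * hh y z = hh x z := by
  obtain ⟨γ, hγ⟩ := star_path hx hy
  obtain ⟨δ, hδ⟩ := star_path hy hz
  rw [← h σ hσ γ hγ, ← h σ hσ δ hδ, ← H.trans γ δ (fun t => star_sub hσ (hγ t))
    (fun t => star_sub hσ (hδ t))]
  refine h σ hσ _ fun t => ?_
  rw [Path.trans_apply]
  split_ifs
  · exact hγ _
  · exact hδ _

end Pool.Agent.Helper7.MazBlk

namespace Pool.Agent.Helper26.Maz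

open Pool.Agent.Helper7.MazBlk

theorem blk_labels {Γ : Type*} [Group Γ] (H : HolOn (K0ᶜ) Γ) :
    ∃ g : Blk → Blk → Γ, Flat3 g ∧ ∃ p : C4 × ℝ × ℝ → Γ, ∀ σ : Cell, σ ∉ Kc →
      ∀ {x y : C4 × ℝ × ℝ} (γ : Path x y), (∀ t, γ t ∈ star σ) →
        H.hol γ = (p x)⁻¹ * g (home x) (home y) * p y := by
  obtain ⟨hh, h⟩ := exists_hh H
  refine ⟨fun c c' => hh (centre c) (centre c'), ?_, fun x => hh (centre (home x)) x, ?_⟩
  · intro σ hσ c c' c'' hc hc' hc''
    exact hh_mul H h hσ ((centre_mem σ c).2 hc) ((centre_mem σ c').2 hc')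
      ((centre_mem σ c'').2 hc'')
  · intro σ hσ x y γ hγ
    have ex := hγ 0
    have ey := hγ 1
    rw [Path.source] at ex
    rw [Path.target] at ey
    have cx := (centre_mem σ _).2 (inc_home_of_mem ex)
    have cy := (centre_mem σ _).2 (inc_home_of_mem ey)
    rw [h σ hσ γ hγ]
    have e1 := hh_mul H h hσ cx ex ey
    have e2 := hh_mul H h hσ cx cy ey
    simp only
    rw [mul_assoc, e2, ← e1]
    group

theorem blk_conn : IsPathConnected (K0ᶜ) := by
  -- joining centres through a common cell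
  have step : ∀ σ : Cell, σ ∉ Kc → ∀ c c' : Blk, inc σ c → inc σ c' →
      JoinedIn (K0ᶜ) (centre c) (centre c') := by
    intro σ hσ c c' hc hc'
    obtain ⟨γ, hγ⟩ := star_path ((centre_mem σ c).2 hc) ((centre_mem σ c').2 hc')
    exact ⟨γ, fun t => star_sub hσ (hγ t)⟩
  have q1 : ∀ (j : ZMod 4) (a : Fin 5) (b : Fin 3),
      (((2 * (j.val : ZMod 8) + 1, ⟨2 * a.val, by omega⟩, ⟨2 * b.val + 1, by omega⟩) : Cell) ∉ Kc ∧
      inc (2 * (j.val : ZMod 8) + 1, ⟨2 * a.val, by omega⟩, ⟨2 * b.val + 1, by omega⟩)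
        (j, a, b.castSucc) ∧
      inc (2 * (j.val : ZMod 8) + 1, ⟨2 * a.val, by omega⟩, ⟨2 * b.val + 1, by omega⟩)
        (j, a, b.succ)) := by decide +kernel
  have q2 : ∀ (j : ZMod 4) (a : Fin 4),
      (((2 * (j.val : ZMod 8) + 1, ⟨2 * a.val + 1, by omega⟩, 0) : Cell) ∉ Kc ∧
      inc (2 * (j.val : ZMod 8) + 1, ⟨2 * a.val + 1, by omega⟩, 0) (j, a.castSucc, 0) ∧
      inc (2 * (j.val : ZMod 8) + 1, ⟨2 * a.val + 1, by omega⟩, 0) (j, a.succ, 0)) := by
    decide +kernel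
  have q3 : ∀ (j : ZMod 4), (((2 * (j.val : ZMod 8) + 2, 0, 0) : Cell) ∉ Kc ∧
      inc (2 * (j.val : ZMod 8) + 2, 0, 0) (j, 0, 0) ∧
      inc (2 * (j.val : ZMod 8) + 2, 0, 0) (j + 1, 0, 0)) := by
    decide +kernel
  have q0 : ∀ c : Blk, cellD (cD c) ∉ Kc := by decide +kernel
  have mem : ∀ c : Blk, centre c ∈ K0ᶜ := by
    intro c h
    rw [mem_K0, centre, cellOf_pt] at h
    exact q0 c h
  have s1 : ∀ (j : ZMod 4) (a : Fin 5) (n : ℕ) (hn : n < 4),
      JoinedIn (K0ᶜ) (centre (j, a, 0)) (centre (j, a, ⟨n, hn⟩)) := by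
    intro j a n
    induction n with
    | zero => intro hn; exact JoinedIn.refl (mem _)
    | succ n ih =>
      intro hn
      refine (ih (by omega)).trans ?_
      have := q1 j a ⟨n, by omega⟩
      exact step _ this.1 _ _ this.2.1 this.2.2
  have s2 : ∀ (j : ZMod 4) (n : ℕ) (hn : n < 5),
      JoinedIn (K0ᶜ) (centre (j, 0, 0)) (centre (j, ⟨n, hn⟩, 0)) := by
    intro j n
    induction n with
    | zero => intro hn; exact JoinedIn.refl (mem _)
    | succ n ih =>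
      intro hn
      refine (ih (by omega)).trans ?_
      have := q2 j ⟨n, by omega⟩
      exact step _ this.1 _ _ this.2.1 this.2.2
  have s3 : ∀ (n : ℕ), JoinedIn (K0ᶜ) (centre (0, 0, 0)) (centre ((n : ZMod 4), 0, 0)) := by
    intro n
    induction n with
    | zero => exact JoinedIn.refl (mem _)
    | succ n ih =>
      refine ih.trans ?_
      have := q3 (n : ZMod 4)
      have e : ((n + 1 : ℕ) : ZMod 4) = (n : ZMod 4) + 1 := by push_cast; rfl
      rw [e]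
      exact step _ this.1 _ _ this.2.1 this.2.2
  refine ⟨centre (0, 0, 0), mem _, fun {p} hp => ?_⟩
  have hc : cellOf p ∉ Kc := fun h => hp ((mem_K0 p).2 h)
  obtain ⟨γ, hγ⟩ := star_path ((centre_mem (cellOf p) (home p)).2 (inc_cellOf_home p))
    (mem_star_cellOf p)
  refine JoinedIn.trans ?_ ⟨γ, fun t => star_sub hc (hγ t)⟩
  have h3 := s3 (home p).1.val
  rw [ZMod.natCast_zmod_val] at h3
  exact (h3.trans (s2 (home p).1 (home p).2.1.val (home p).2.1.isLt)).trans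
    (s1 (home p).1 (home p).2.1 (home p).2.2.val (home p).2.2.isLt)

end Pool.Agent.Helper26.Maz
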