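import Mathlib
import Pool.Agent.Helper7.Maz.BlkD

/-!
# MAZ-BLK, part E: loops
-/

set_option autoImplicit false

namespace Pool.Agent.Helper7.MazBlk

open Pool.Agent.Helper26.Maz

theorem leZ_face {D s : ℤ} (hD : D % 2 = 1) (hs : s = 0 ∨ s = 1 ∨ s = -1) {u : ℝ} (h0 : 0 ≤ u)
    (h1 : u ≤ 1) : leZ (D + s) (dbl ((D : ℝ) / 2 + u * s)) := by
  obtain ⟨m, hm⟩ : ∃ m, D = 2 * m + 1 := ⟨D / 2, by omega⟩
  subst hm
  have hf := floor_ceil ((((2 * m + 1 : ℤ) : ℝ)) / 2 + u * (s : ℝ))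
  rcases hs with rfl | rfl | rfl
  · left
    have : (((2 * m + 1 : ℤ) : ℝ)) / 2 + u * ((0 : ℤ) : ℝ) = (((2 * m + 1 : ℤ) : ℝ)) / 2 := by
      push_cast; ring
    rw [this, dbl_half]; ring
  · have e1 : m ≤ ⌊(((2 * m + 1 : ℤ) : ℝ)) / 2 + u * ((1 : ℤ) : ℝ)⌋ := by
      rw [Int.le_floor]; push_cast; linarith
    have e2 : ⌈(((2 * m + 1 : ℤ) : ℝ)) / 2 + u * ((1 : ℤ) : ℝ)⌉ ≤ m + 2 := by
      rw [Int.ceil_le]; push_cast; linarith
    have e3 : ⌊(((2 * m + 1 : ℤ) : ℝ)) / 2 + u * ((1 : ℤ) : ℝ)⌋ < m + 2 := by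
      rw [Int.floor_lt]; push_cast; linarith
    have e4 : m < ⌈(((2 * m + 1 : ℤ) : ℝ)) / 2 + u * ((1 : ℤ) : ℝ)⌉ := by
      rw [Int.lt_ceil]; push_cast; linarith
    unfold leZ dbl
    omega
  · have e1 : m - 1 ≤ ⌊(((2 * m + 1 : ℤ) : ℝ)) / 2 + u * ((-1 : ℤ) : ℝ)⌋ := by
      rw [Int.le_floor]; push_cast; linarith
    have e2 : ⌈(((2 * m + 1 : ℤ) : ℝ)) / 2 + u * ((-1 : ℤ) : ℝ)⌉ ≤ m + 1 := by
      rw [Int.ceil_le]; push_cast; linarith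
    have e3 : ⌊(((2 * m + 1 : ℤ) : ℝ)) / 2 + u * ((-1 : ℤ) : ℝ)⌋ < m + 1 := by
      rw [Int.floor_lt]; push_cast; linarith
    have e4 : m - 1 < ⌈(((2 * m + 1 : ℤ) : ℝ)) / 2 + u * ((-1 : ℤ) : ℝ)⌉ := by
      rw [Int.lt_ceil]; push_cast; linarith
    unfold leZ dbl
    omega

/-- the faces met by the polygon -/
def face (s : Fin 26 → ℤ × ℤ × ℤ) (D0 : ℤ × ℤ × ℤ) (i : Fin 26) : Cell :=
  cellD ((V s D0 i).1 + (s i).1, (V s D0 i).2.1 + (s i).2.1, (V s D0 i).2.2 + (s i).2.2)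

/-- the base point -/
noncomputable def bp (D0 : ℤ × ℤ × ℤ) : ℝ × ℝ × ℝ :=
  ((D0.1 : ℝ) / 2, (D0.2.1 : ℝ) / 2, (D0.2.2 : ℝ) / 2)

/-- the parametrised curve on the line -/
noncomputable def crv (s : Fin 26 → ℤ × ℤ × ℤ) (D0 : ℤ × ℤ × ℤ) (t : ℝ) : C4 × ℝ × ℝ :=
  pr (R s (bp D0) t)

theorem continuous_crv (s : Fin 26 → ℤ × ℤ × ℤ) (D0 : ℤ × ℤ × ℤ) : Continuous (crv s D0) :=
  continuous_pr.comp (continuous_R s _)

theorem crv_apply (s : Fin 26 → ℤ × ℤ × ℤ) (D0 : ℤ × ℤ × ℤ) (i : Fin 26) (u : ℝ) (h0 : 0 ≤ u)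
    (h1 : u ≤ 1) : crv s D0 (((i.val : ℕ) : ℝ) + u) =
      (((((V s D0 i.val).1 : ℝ) / 2 + u * (s i).1 : ℝ) : C4),
        ((V s D0 i.val).2.1 : ℝ) / 2 + u * (s i).2.1,
        ((V s D0 i.val).2.2 : ℝ) / 2 + u * (s i).2.2) := by
  unfold crv bp
  rw [R_apply s D0 i u h0 h1]; rfl

theorem crv_nat (s : Fin 26 → ℤ × ℤ × ℤ) (D0 : ℤ × ℤ × ℤ) (n : ℕ) (hn : n ≤ 26) :
    crv s D0 (n : ℝ) = pt (V s D0 n) := by
  rcases Nat.lt_or_ge n 26 with h | h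
  · have := crv_apply s D0 ⟨n, h⟩ 0 le_rfl zero_le_one
    simp only [add_zero, zero_mul] at this
    rw [this]; rfl
  · have hn' : n = 26 := by omega
    subst hn'
    have := crv_apply s D0 ⟨25, by norm_num⟩ 1 zero_le_one le_rfl
    have e : ((((⟨25, by norm_num⟩ : Fin 26).val : ℕ) : ℝ) + 1) = ((26 : ℕ) : ℝ) := by norm_num
    rw [e] at this
    rw [this]
    have hv := V_succ s D0 ⟨25, by norm_num⟩
    simp only at hv
    unfold pt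
    rw [hv]
    refine Prod.ext ?_ (Prod.ext ?_ ?_)
    · simp only
      congr 1
      push_cast; ring
    · simp only
      push_cast; ring
    · simp only
      push_cast; ring

theorem crv_star (s : Fin 26 → ℤ × ℤ × ℤ) (D0 : ℤ × ℤ × ℤ)
    (hodd : D0.1 % 2 = 1 ∧ D0.2.1 % 2 = 1 ∧ D0.2.2 % 2 = 1)
    (hs : ∀ i, ((s i).1 = 0 ∨ (s i).1 = 1 ∨ (s i).1 = -1) ∧
      ((s i).2.1 = 0 ∨ (s i).2.1 = 1 ∨ (s i).2.1 = -1) ∧
      ((s i).2.2 = 0 ∨ (s i).2.2 = 1 ∨ (s i).2.2 = -1)) (i : Fin 26) (u : ℝ) (h0 : 0 ≤ u)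
    (h1 : u ≤ 1) : crv s D0 (((i.val : ℕ) : ℝ) + u) ∈ Helper26.Maz.star (face s D0 i) := by
  have v : (V s D0 i).1 % 2 = 1 ∧ (V s D0 i).2.1 % 2 = 1 ∧ (V s D0 i).2.2 % 2 = 1 := by
    unfold V; simp only; omega
  rw [mem_star, crv_apply s D0 i u h0 h1, cellOf_coe]
  exact le_of_leZ (leZ_face v.1 (hs i).1 h0 h1) (leZ_face v.2.1 (hs i).2.1 h0 h1)
    (leZ_face v.2.2 (hs i).2.2 h0 h1)

theorem loop_formula {Γ : Type*} [Group Γ] (H : HolOn (K0ᶜ) Γ) (g : Blk → Blk → Γ)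
    (p : C4 × ℝ × ℝ → Γ) (h : ∀ σ : Cell, σ ∉ Kc → ∀ {x y : C4 × ℝ × ℝ} (γ : Path x y),
      (∀ t, γ t ∈ Helper26.Maz.star σ) → H.hol γ = (p x)⁻¹ * g (home x) (home y) * p y)
    (s : Fin 26 → ℤ × ℤ × ℤ) (D0 : ℤ × ℤ × ℤ)
    (hodd : D0.1 % 2 = 1 ∧ D0.2.1 % 2 = 1 ∧ D0.2.2 % 2 = 1)
    (hs : ∀ i, ((s i).1 = 0 ∨ (s i).1 = 1 ∨ (s i).1 = -1) ∧
      ((s i).2.1 = 0 ∨ (s i).2.1 = 1 ∨ (s i).2.1 = -1) ∧
      ((s i).2.2 = 0 ∨ (s i).2.2 = 1 ∨ (s i).2.2 = -1))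
    (hface : ∀ i, face s D0 i ∉ Kc)
    (hcl : (V s D0 26).1 % 8 = D0.1 % 8 ∧ (V s D0 26).2.1 = D0.2.1 ∧ (V s D0 26).2.2 = D0.2.2)
    (c : Fin 27 → Blk) (hc : ∀ i : Fin 27, homeD (V s D0 i) = c i)
    (ℓ : C(C26, C4 × ℝ × ℝ)) (hℓ : ∀ t, ℓ t = polygon s (bp D0) t) :
    H.loop ℓ = (p (ℓ 0))⁻¹ * prodL g c * p (ℓ 0) := by
  have hf := continuous_crv s D0
  have h00 : crv s D0 0 = pt (V s D0 0) := by
    have := crv_nat s D0 0 (by norm_num); simpa using this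
  have h26 : crv s D0 26 = pt (V s D0 26) := by
    have := crv_nat s D0 26 (by norm_num); simpa using this
  have hV0 : V s D0 0 = D0 := by
    unfold V; simp
  have hpt : pt (V s D0 26) = pt D0 := by
    unfold pt
    refine Prod.ext ?_ (Prod.ext ?_ ?_)
    · simp only
      have hd : (8 : ℤ) ∣ (V s D0 26).1 - D0.1 := by omega
      obtain ⟨k, hk⟩ := hd
      rw [← sub_eq_zero, ← AddCircle.coe_sub, AddCircle.coe_eq_zero_iff]
      refine ⟨k, ?_⟩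
      have hk' : ((V s D0 26).1 : ℝ) - D0.1 = 8 * k := by exact_mod_cast hk
      rw [zsmul_eq_mul]; linarith
    · simp only [hcl.2.1]
    · simp only [hcl.2.2]
  have hℓf : ∀ t : ℝ, 0 ≤ t → t ≤ 26 → ℓ ((t : ℝ) : C26) = crv s D0 t := by
    intro t h0 h1
    rcases h1.lt_or_eq with h1 | h1
    · rw [hℓ, polygon_coe _ _ _ h0 h1]; rfl
    · subst h1
      have e : ((26 : ℝ) : C26) = ((0 : ℝ) : C26) := by
        have : ((26 : ℝ) : C26) = 0 := AddCircle.coe_period 26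
        rw [this]; simp
      rw [e, hℓ, polygon_coe _ _ _ le_rfl (by norm_num), h26, hpt]
      have : pr (R s (bp D0) 0) = crv s D0 0 := rfl
      rw [this, h00, hV0]
  have hS : ∀ t : ℝ, 0 ≤ t → t ≤ 26 → crv s D0 t ∈ (K0ᶜ : Set (C4 × ℝ × ℝ)) := by
    intro t h0 h1
    rcases h1.lt_or_eq with h1 | h1
    · have hn : ⌊t⌋₊ < 26 := by rw [Nat.floor_lt h0]; exact_mod_cast h1
      have := crv_star s D0 hodd hs ⟨⌊t⌋₊, hn⟩ (t - ⌊t⌋₊) (by linarith [Nat.floor_le h0])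
        (by linarith [Nat.lt_floor_add_one t])
      have e : (((⟨⌊t⌋₊, hn⟩ : Fin 26).val : ℕ) : ℝ) + (t - ⌊t⌋₊) = t := by simp
      rw [e] at this
      exact star_sub (hface _) this
    · subst h1
      have := crv_star s D0 hodd hs ⟨25, by norm_num⟩ 1 zero_le_one le_rfl
      have e : ((((⟨25, by norm_num⟩ : Fin 26).val : ℕ) : ℝ) + 1) = (26 : ℝ) := by norm_num
      rw [e] at this
      exact star_sub (hface _) this
  -- one piece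
  have piece : ∀ n : ℕ, n < 26 → H.hol (seg hf (n : ℝ) ((n + 1 : ℕ) : ℝ)) =
      (p (crv s D0 n))⁻¹ * g (homeD (V s D0 n)) (homeD (V s D0 (n + 1))) *
        p (crv s D0 ((n + 1 : ℕ) : ℝ)) := by
    intro n hn
    have := h (face s D0 ⟨n, hn⟩) (hface _) (seg hf (n : ℝ) ((n + 1 : ℕ) : ℝ)) ?_
    · rw [this]
      congr 2
      congr 1
      · rw [crv_nat s D0 n (by omega), home_pt]
      · rw [crv_nat s D0 (n + 1) (by omega), home_pt]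
    · intro t
      rw [seg_apply]
      have e : (n : ℝ) + t * (((n + 1 : ℕ) : ℝ) - n) = (((⟨n, hn⟩ : Fin 26).val : ℕ) : ℝ) + t := by
        push_cast; ring
      rw [e]
      exact crv_star s D0 hodd hs ⟨n, hn⟩ t t.2.1 t.2.2
  have main : ∀ n : ℕ, n ≤ 26 → H.hol (seg hf 0 (n : ℝ)) = (p (crv s D0 0))⁻¹ *
      ((List.range n).map fun i => g (homeD (V s D0 i)) (homeD (V s D0 (i + 1)))).prod *
        p (crv s D0 (n : ℝ)) := by
    intro n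
    induction n with
    | zero =>
      intro _
      have : H.hol (seg hf 0 ((0 : ℕ) : ℝ)) = H.hol (Path.refl (crv s D0 0)) := by
        refine hol_congr H _ _ fun t => ?_
        rw [seg_apply]; simp
      rw [this, hol_refl' H (hS 0 le_rfl (by norm_num))]
      simp
    | succ n ih =>
      intro hn
      have hn' : (n : ℝ) + 1 ≤ 26 := by exact_mod_cast hn
      rw [hol_seg hf (a := 0) (b := (n : ℝ)) (c := ((n + 1 : ℕ) : ℝ)) (Nat.cast_nonneg n)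
        (by push_cast; linarith) (S := K0ᶜ)
        (fun t h0 h1 => hS t h0 (h1.trans (by push_cast; linarith))) H,
        ih (by omega), piece n (by omega), List.range_succ, List.map_append, List.prod_append]
      simp only [List.map_cons, List.map_nil, List.prod_cons, List.prod_nil, mul_one]
      group
  rw [hol_map_seg hf ℓ hℓf H]
  have m26 := main 26 le_rfl
  rw [hol_congr H (seg hf 0 26) (seg hf 0 ((26 : ℕ) : ℝ)) (fun t => by simp [seg_apply]), m26]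
  have e0 : crv s D0 0 = ℓ 0 := by
    have := hℓf 0 le_rfl (by norm_num)
    rw [← this]; simp
  have e26 : crv s D0 ((26 : ℕ) : ℝ) = ℓ 0 := by
    rw [crv_nat s D0 26 le_rfl, hpt, ← e0, h00, hV0]
  rw [e0, e26]
  congr 2
  unfold prodL
  congr 1
  rw [List.ofFn_eq_map, ← List.map_coe_finRange_eq_range, List.map_map]
  refine List.map_congr_left fun i _ => ?_
  simp only [Function.comp_apply]
  rw [← hc i.castSucc, ← hc i.succ]
  simp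

end Pool.Agent.Helper7.MazBlk

namespace Pool.Agent.Helper26.Maz

open Pool.Agent.Helper7.MazBlk

theorem blk_loop {Γ : Type*} [Group Γ] (H : HolOn (K0ᶜ) Γ) (g : Blk → Blk → Γ)
    (p : C4 × ℝ × ℝ → Γ) (h : ∀ σ : Cell, σ ∉ Kc → ∀ {x y : C4 × ℝ × ℝ} (γ : Path x y),
      (∀ t, γ t ∈ star σ) → H.hol γ = (p x)⁻¹ * g (home x) (home y) * p y)
    (ℓ : C(C26, C4 × ℝ × ℝ)) (hℓ : ∀ t, ℓ t = knot (1 / 2) t) :
    H.loop ℓ = (p (ℓ 0))⁻¹ * prodL g seqK * p (ℓ 0) := by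
  refine loop_formula H g p h steps (1, 1, 3) (by decide) steps_val ?_ ?_ seqK ?_ ℓ ?_
  · decide +kernel
  · decide +kernel
  · decide +kernel
  · intro t
    rw [hℓ t]
    unfold knot bp
    norm_num

theorem blk_ring {Γ : Type*} [Group Γ] (H : HolOn (K0ᶜ) Γ) (g : Blk → Blk → Γ)
    (p : C4 × ℝ × ℝ → Γ) (h : ∀ σ : Cell, σ ∉ Kc → ∀ {x y : C4 × ℝ × ℝ} (γ : Path x y),
      (∀ t, γ t ∈ star σ) → H.hol γ = (p x)⁻¹ * g (home x) (home y) * p y)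
    (r : C(C26, C4 × ℝ × ℝ)) (hr : ∀ t, r t = ring t) :
    H.loop r = (p (r 0))⁻¹ * prodL g seqR * p (r 0) := by
  refine loop_formula H g p h ringSteps (1, -1, -1) (by decide) ?_ ?_ ?_ seqR ?_ r ?_
  · decide +kernel
  · decide +kernel
  · decide +kernel
  · decide +kernel
  · intro t
    rw [hr t]
    unfold ring bp
    norm_num

end Pool.Agent.Helper26.Maz
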