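import Mathlib
import Pool.Agent.Helper7.Maz.BlkE
import Pool.Agent.Helper85.MazVK

/-!
# MAZ-BLK: a holonomy with given labels
-/

set_option autoImplicit false

namespace Pool.Agent.Helper26.Maz

open Pool.Agent.Helper7.MazBlk

theorem blk_exists {Γ : Type*} [Group Γ] (g : Blk → Blk → Γ) (hg : Flat3 g) :
    ∃ H : HolOn (K0ᶜ) Γ, ∀ σ : Cell, σ ∉ Kc → ∀ {x y : C4 × ℝ × ℝ} (γ : Path x y),
      (∀ t, γ t ∈ star σ) → H.hol γ = g (home x) (home y) := by
  let ι : Type := {σ : Cell // σ ∉ Kc}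
  let F : ∀ i : ι, HolOn (star i.1 ∩ (K0ᶜ : Set (C4 × ℝ × ℝ))) Γ := fun i =>
    { hol := fun {x y} _ => g (home x) (home y)
      trans := by
        intro x y z γ δ hγ hδ
        have ex := (hγ 0).1
        have ey := (hγ 1).1
        have ez := (hδ 1).1
        rw [Path.source] at ex
        rw [Path.target] at ey ez
        exact (hg i.1 i.2 _ _ _ (inc_home_of_mem ex) (inc_home_of_mem ey)
          (inc_home_of_mem ez)).symm
      homot := fun _ _ _ _ => rfl }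
  obtain ⟨H, hH⟩ := HolOn.glue (fun i : ι => star i.1) (fun i => isOpen_star _)
    (S := (K0ᶜ : Set (C4 × ℝ × ℝ)))
    (by
      intro p hp
      rw [K0_compl] at hp
      simp only [Set.mem_iUnion, exists_prop] at hp
      obtain ⟨σ, hσ, hp⟩ := hp
      exact Set.mem_iUnion.2 ⟨⟨σ, hσ⟩, hp⟩) F (fun _ _ _ _ _ _ => rfl)
  refine ⟨H, fun σ hσ x y γ hγ => ?_⟩
  exact hH ⟨σ, hσ⟩ γ fun t => ⟨hγ t, star_sub hσ (hγ t)⟩

end Pool.Agent.Helper26.Maz
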