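import Mathlib
import Pool.Agent.Helper7.Maz.Blk

/-!
# MAZ-BLK: further facts used by the assembly
-/

set_option autoImplicit false

namespace Pool.Agent.Helper26.Maz

open Pool.Agent.Helper7.MazBlk

theorem inc_home' {σ : Cell} {x : C4 × ℝ × ℝ} (h : x ∈ star σ) : inc σ (home x) :=
  inc_home_of_mem h

/-- The centre of a block. -/
noncomputable def cen (c : Blk) : C4 × ℝ × ℝ :=
  (((c.1.val : ℝ) + 1 / 2 : ℝ), (c.2.1.val : ℝ) - 1 / 2, (c.2.2.val : ℝ) - 1 / 2)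

theorem cen_eq (c : Blk) : cen c = centre c := by
  unfold cen centre pt cD
  refine Prod.ext ?_ (Prod.ext ?_ ?_)
  · simp only
    congr 1
    push_cast; ring
  · simp only
    push_cast; ring
  · simp only
    push_cast; ring

theorem home_cen (c : Blk) : home (cen c) = c := by
  rw [cen_eq, centre, home_pt]
  have key : ∀ c : Blk, homeD (cD c) = c := by decide +kernel
  exact key c

theorem cen_mem_star {σ : Cell} {c : Blk} (h : inc σ c) : cen c ∈ star σ := by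
  rw [cen_eq]; exact (centre_mem σ c).2 h

theorem isPathConnected_star (σ : Cell) : IsPathConnected (star σ) := by
  have key1 : ∀ s : ZMod 8, ∃ c : ZMod 4, (s = 2 * (c.val : ZMod 8) ∨
      s = 2 * (c.val : ZMod 8) + 1 ∨ s = 2 * (c.val : ZMod 8) + 2) := by decide +kernel
  have key2 : ∀ s : Fin 9, ∃ c : Fin 5, 2 * c.val ≤ s.val + 1 ∧ s.val ≤ 2 * c.val + 1 := by
    decide +kernel
  have key3 : ∀ s : Fin 7, ∃ c : Fin 4, 2 * c.val ≤ s.val + 1 ∧ s.val ≤ 2 * c.val + 1 := by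
    decide +kernel
  obtain ⟨c, hc⟩ : ∃ c : Blk, inc σ c := by
    obtain ⟨c1, h1⟩ := key1 σ.1
    obtain ⟨c2, h2⟩ := key2 σ.2.1
    obtain ⟨c3, h3⟩ := key3 σ.2.2
    exact ⟨(c1, c2, c3), h1, h2, h3⟩
  refine ⟨cen c, cen_mem_star hc, fun {y} hy => ?_⟩
  obtain ⟨γ, hγ⟩ := star_path (cen_mem_star hc) hy
  exact ⟨γ, hγ⟩

theorem outerR_subset : outerR ⊆ K0ᶜ := by
  intro p hp hK
  have hc := (mem_K0 p).1 hK
  have key : ∀ τ ∈ Kc, 1 ≤ τ.2.1.val ∧ τ.2.1.val ≤ 7 ∧ 1 ≤ τ.2.2.val ∧ τ.2.2.val ≤ 5 := by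
    decide +kernel
  obtain ⟨k1, k2, k3, k4⟩ := key _ hc
  have e1 : (cellOf p).2.1.val = cl 8 (dbl p.2.1) := rfl
  have e2 : (cellOf p).2.2.val = cl 6 (dbl p.2.2) := rfl
  rw [e1] at k1 k2
  rw [e2] at k3 k4
  have f1 := floor_ceil p.2.1
  have f2 := floor_ceil p.2.2
  unfold cl dbl at k1 k2 k3 k4
  rcases hp with h | h | h | h
  · have : ⌊p.2.1⌋ < 0 := by rw [Int.floor_lt]; exact_mod_cast h
    omega
  · have : (3 : ℤ) < ⌈p.2.1⌉ := by rw [Int.lt_ceil]; exact_mod_cast h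
    omega
  · have : ⌊p.2.2⌋ < 0 := by rw [Int.floor_lt]; exact_mod_cast h
    omega
  · have : (2 : ℤ) < ⌈p.2.2⌉ := by rw [Int.lt_ceil]; exact_mod_cast h
    omega

end Pool.Agent.Helper26.Maz
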